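import Pool.Agent.Helper85.LN.Goals

/-! MP_d0c558_al, project LN, goal ENC1: chains of elementary steps and `Eqv`. -/

namespace Pool.Agent.Helper56.LN

open Pool.Agent.Helper85.LN

theorem codeW_inj {m : ℕ} : Function.Injective (codeW (m := m)) := by
  refine List.map_injective_iff.2 ?_
  rintro ⟨q, b⟩ ⟨q', b'⟩ h
  simp only [Prod.mk.injEq] at h
  exact Prod.ext (Fin.ext h.1) h.2

theorem codeW_append {m : ℕ} (u v : List (S (Fin m))) : codeW (u ++ v) = codeW u ++ codeW v :=
  List.map_append

theorem codeW_take {m : ℕ} (i : ℕ) (u : List (S (Fin m))) : (codeW u).take i = codeW (u.take i) :=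
  List.map_take.symm

theorem codeW_drop {m : ℕ} (i : ℕ) (u : List (S (Fin m))) : (codeW u).drop i = codeW (u.drop i) :=
  List.map_drop.symm

theorem okC_codeW {m : ℕ} (u : List (S (Fin m))) : OkC m (codeW u) := by
  intro s hs
  obtain ⟨t, -, rfl⟩ := List.mem_map.1 hs
  exact t.1.2

theorem exists_codeW {m : ℕ} (w : WC) (h : OkC m w) : ∃ u : List (S (Fin m)), codeW u = w := by
  induction w with
  | nil => exact ⟨[], rfl⟩
  | cons s w ih =>
    obtain ⟨u, hu⟩ := ih fun t ht => h t (List.mem_cons_of_mem _ ht)
    refine ⟨(⟨s.1, h s List.mem_cons_self⟩, s.2) :: u, ?_⟩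
    change (s.1, s.2) :: codeW u = s :: w
    rw [hu]

theorem stpC_iff {m : ℕ} (R : List (List (S (Fin m)))) (u v : List (S (Fin m))) :
    StpC m (R.map codeW) (codeW u) (codeW v) ↔ Stp R u v := by
  constructor
  · rintro ⟨i, -, h | ⟨q, hq, h | h⟩⟩
    · obtain ⟨r, hr, h⟩ := h
      obtain ⟨r', hr', rfl⟩ := List.mem_map.1 hr
      rw [codeW_take, codeW_drop, ← codeW_append, ← codeW_append] at h
      exact ⟨u.take i, r', u.drop i, Or.inl hr', (List.take_append_drop i u).symm, codeW_inj h⟩
    · have h1 : ([(q, true), (q, false)] : WC) =
          codeW [((⟨q, hq⟩ : Fin m), true), (⟨q, hq⟩, false)] := rfl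
      rw [h1, codeW_take, codeW_drop, ← codeW_append, ← codeW_append] at h
      exact ⟨u.take i, _, u.drop i, Or.inr ⟨⟨q, hq⟩, true, rfl⟩, (List.take_append_drop i u).symm,
        codeW_inj h⟩
    · have h1 : ([(q, false), (q, true)] : WC) =
          codeW [((⟨q, hq⟩ : Fin m), false), (⟨q, hq⟩, true)] := rfl
      rw [h1, codeW_take, codeW_drop, ← codeW_append, ← codeW_append] at h
      exact ⟨u.take i, _, u.drop i, Or.inr ⟨⟨q, hq⟩, false, rfl⟩, (List.take_append_drop i u).symm,
        codeW_inj h⟩
  · rintro ⟨p, r, s, hr, rfl, rfl⟩
    have h1 : (codeW (p ++ s)).take p.length = codeW p := by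
      rw [codeW_take, List.take_left]
    have h2 : (codeW (p ++ s)).drop p.length = codeW s := by
      rw [codeW_drop, List.drop_left]
    refine ⟨p.length, ?_, ?_⟩
    · have h3 : (codeW (p ++ s)).length = p.length + s.length := by
        rw [codeW, List.length_map, List.length_append]
      omega
    · rw [h1, h2]
      rcases hr with hr | ⟨q, b, rfl⟩
      · left
        exact ⟨codeW r, List.mem_map_of_mem hr, by rw [← codeW_append, ← codeW_append]⟩
      · right
        refine ⟨q, q.2, ?_⟩
        cases b
        · right
          rw [codeW_append, codeW_append]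
          rfl
        · left
          rw [codeW_append, codeW_append]
          rfl

/-- The symmetric elementary steps. -/
def Sy {m : ℕ} (R : List (List (S (Fin m)))) (u v : List (S (Fin m))) : Prop :=
  Stp R u v ∨ Stp R v u

theorem sy_symm {m : ℕ} {R : List (List (S (Fin m)))} {u v : List (S (Fin m))}
    (h : Relation.ReflTransGen (Sy R) u v) : Relation.ReflTransGen (Sy R) v u := by
  induction h with
  | refl => exact Relation.ReflTransGen.refl
  | tail _ h ih => exact Relation.ReflTransGen.head (r := Sy R) (Or.symm h) ih

theorem eqv_iff {m : ℕ} (R : List (List (S (Fin m)))) (u v : List (S (Fin m))) :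
    Eqv R u v ↔ Relation.ReflTransGen (Sy R) u v := by
  constructor
  · intro h
    induction h with
    | rel x y h => exact Relation.ReflTransGen.single (Or.inl h)
    | refl x => exact Relation.ReflTransGen.refl
    | symm x y _ ih => exact sy_symm ih
    | trans x y z _ _ ih1 ih2 => exact ih1.trans ih2
  · intro h
    induction h with
    | refl => exact Eqv.refl _
    | tail _ h ih =>
      rcases h with h | h
      · exact ih.trans (Eqv.step h)
      · exact ih.trans (Eqv.step h).symm

theorem enc1 : S_ENC1 := by
  intro m R u v
  constructor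
  · rintro ⟨c, hc⟩
    induction c generalizing u with
    | nil => exact absurd rfl hc.1
    | cons x c ih =>
      obtain ⟨-, h0, h1, hok, hst⟩ := hc
      have hx : x = codeW u := h0
      cases c with
      | nil =>
        have h2 : x = codeW v := h1
        rw [codeW_inj (hx.symm.trans h2)]
        exact Eqv.refl _
      | cons y c =>
        obtain ⟨u', rfl⟩ := exists_codeW y (hok y (by simp))
        have h3 : Eqv R u' v := by
          refine ih u' ⟨by simp, rfl, ?_, fun w hw => hok w (List.mem_cons_of_mem _ hw), ?_⟩
          · simpa using h1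
          · intro i hi
            have h4 := hst (i + 1) (by simp at hi ⊢; omega)
            simpa using h4
        have h5 := hst 0 (by simp)
        have h6 : StpC m (R.map codeW) (codeW u) (codeW u') ∨
            StpC m (R.map codeW) (codeW u') (codeW u) := by
          rw [← hx]
          simpa using h5
        rw [stpC_iff, stpC_iff] at h6
        rcases h6 with h6 | h6
        · exact (Eqv.step h6).trans h3
        · exact (Eqv.step h6).symm.trans h3
  · intro h
    rw [eqv_iff] at h
    induction h using Relation.ReflTransGen.head_induction_on with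
    | refl =>
      refine ⟨[codeW v], by simp, rfl, rfl, ?_, ?_⟩
      · intro w hw
        rw [List.mem_singleton.1 hw]
        exact okC_codeW v
      · intro i hi
        simp at hi
    | @head a b h _ ih =>
      obtain ⟨c, hne, h0, h1, hok, hst⟩ := ih
      have hlen : 0 < c.length := List.length_pos_iff.2 hne
      refine ⟨codeW a :: c, by simp, rfl, ?_, ?_, ?_⟩
      · rw [← h1]
        have h2 : (codeW a :: c).length - 1 = (c.length - 1) + 1 := by
          simp
          omega
        rw [h2, List.getD_cons_succ]
      · intro w hw
        rcases List.mem_cons.1 hw with rfl | hw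
        · exact okC_codeW a
        · exact hok w hw
      · intro i hi
        cases i with
        | zero =>
          rw [List.getD_cons_zero, List.getD_cons_succ, h0, stpC_iff, stpC_iff]
          exact h
        | succ i =>
          rw [List.getD_cons_succ, List.getD_cons_succ]
          apply hst
          simp at hi
          omega

end Pool.Agent.Helper56.LN
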