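import Pool.Agent.Helper64.LN.GoalsB

set_option autoImplicit false

/-! Project LN (MP_2b9d24_gt, phase 2), packet BAS. -/

open Topology Filter Set Metric UpperHalfPlane
open scoped MatrixGroups

namespace Pool.Agent.Helper56.LN

open Pool.Agent.Helper64 Pool.Agent.Helper64.LN

section
variable {X : Type*} [TopologicalSpace X] {B : Set X} {u : ℍ → X}

theorem uni_mem (hu : Uni B u) (z : ℍ) : u z ∈ Bᶜ := by
  rw [← hu.range]
  exact ⟨z, rfl⟩

theorem uni_isCov (hu : Uni B u) : IsCoveringMap (Set.codRestrict u Bᶜ (uni_mem hu)) := by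
  have e : u ⁻¹' Bᶜ = univ := by
    ext z
    simp only [mem_preimage, mem_univ, iff_true]
    exact uni_mem hu z
  let g : ℍ ≃ₜ (u ⁻¹' Bᶜ : Set ℍ) :=
    (Homeomorph.Set.univ ℍ).symm.trans (Homeomorph.setCongr e.symm)
  have h := (hu.cov.isCoveringMap_restrictPreimage).comp_homeomorph g
  convert! h using 1

theorem uni_exists_lift (hu : Uni B u) (c : C(unitInterval, X)) (hc : ∀ t, c t ∈ Bᶜ) (z : ℍ)
    (hz : u z = c 0) : ∃ σ : C(unitInterval, ℍ), σ 0 = z ∧ ∀ t, u (σ t) = c t := by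
  obtain ⟨σ, h1, h2⟩ := (uni_isCov hu).exists_path_lifts
    ⟨fun t => ⟨c t, hc t⟩, by fun_prop⟩ z (Subtype.ext hz.symm)
  refine ⟨σ, h2, fun t => ?_⟩
  exact congrArg Subtype.val (congrFun h1 t)

end

theorem Sz_symm {F : ℍ ≃ₜ ℍ} {z w : ℍ} (h : Sz F z w) : Sz F w z := by
  obtain ⟨g, h1, h2⟩ := h
  exact ⟨g, h1, by rwa [mul_comm]⟩

/-- Points of the annulus off the core are off the curve. -/
theorem notMem_core {X : Type*} [TopologicalSpace X] {p : X} {P : Set X} {u : ℍ → X}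
    {C : OpenPartialHomeomorph ℂ X} {K : Set X} {γ : ℍ ≃ₜ ℍ} {ω : C(ℝ, ℍ)}
    (hC : Crv p P u C K γ ω) {z : ℂ} (hz : z ∈ C.source) (h1 : ‖z‖ ≠ 1) :
    C z ∉ C '' sphere (0 : ℂ) 1 := by
  rintro ⟨w, hw, hwz⟩
  have hw1 : ‖w‖ = 1 := by simpa using hw
  have hws : w ∈ C.source := by
    rw [hC.src]
    constructor <;> rw [hw1] <;> norm_num
  have h2 := C.injOn hws hz hwz
  rw [← h2, hw1] at h1
  exact h1 rfl

theorem norm_core (s t : ℝ) (hs : 0 < s) :
    ‖(s : ℂ) * Complex.exp (2 * Real.pi * Complex.I * t)‖ = s := by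
  rw [norm_mul, Complex.norm_real]
  have : (2 * (Real.pi : ℂ) * Complex.I * t) = ((2 * Real.pi * t : ℝ) : ℂ) * Complex.I := by
    push_cast
    ring
  rw [this, Complex.norm_exp_ofReal_mul_I, mul_one, Real.norm_eq_abs, abs_of_pos hs]

/-- packet BAS -/
theorem goalBAS.{v} (hCOL : GoalCOL.{v}) (hPRE : GoalPRE.{v}) (hREG : GoalREG.{v}) :
    GoalBAS.{v} := by
  intro X _ _ p P u C K γ ω hC
  obtain ⟨W, hcont, hone, hlift, hper, hsides, hloc⟩ := hCOL X p P u C K γ ω hC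
  obtain ⟨haxis, hpre⟩ := hPRE X p P u C K γ ω hC
  obtain ⟨A0, hA0⟩ := hC.cusp
  -- a height
  obtain ⟨h, hh⟩ : ∃ h : ℝ, ∀ z : ℍ, h ≤ z.im → u (A0 • z) ∈ interior K := by
    have h1 : interior K ∈ Filter.map (fun z : ℍ => u (A0 • z))
        (comap UpperHalfPlane.im atTop) := by
      rw [hA0.lim]
      exact mem_nhdsWithin_of_mem_nhds (isOpen_interior.mem_nhds hC.pK)
    rw [Filter.mem_map, Filter.mem_comap] at h1
    obtain ⟨s, hs, hs2⟩ := h1
    obtain ⟨h, hh⟩ := Filter.mem_atTop_sets.1 hs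
    exact ⟨h, fun z hz => hs2 (hh _ hz)⟩
  obtain ⟨z0, hz0, hz1⟩ : ∃ z0 : ℍ, h ≤ z0.im ∧ 1 < z0.im := by
    refine ⟨⟨((max h 1 + 1 : ℝ) : ℂ) * Complex.I, ?_⟩, ?_, ?_⟩
    · have : 0 < max h 1 + 1 := by
        have := le_max_right h 1
        linarith
      simpa using this
    · change h ≤ (((max h 1 + 1 : ℝ) : ℂ) * Complex.I).im
      have := le_max_left h 1
      rw [Complex.mul_im, Complex.ofReal_re, Complex.ofReal_im, Complex.I_im, Complex.I_re]
      linarith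
    · change 1 < (((max h 1 + 1 : ℝ) : ℂ) * Complex.I).im
      have := le_max_right h 1
      rw [Complex.mul_im, Complex.ofReal_re, Complex.ofReal_im, Complex.I_im, Complex.I_re]
      linarith
  have hmem34 : (3 / 4 : ℝ) ∈ Ioo (1 / 2 : ℝ) 2 := by constructor <;> norm_num
  have hW : u (W 0 (3 / 4)) = C (((3 / 4 : ℝ) : ℂ) *
      Complex.exp (2 * Real.pi * Complex.I * (0 : ℝ))) := hlift 0 _ hmem34
  have hn := norm_core (3 / 4) 0 (by norm_num)
  have hsrc : (((3 / 4 : ℝ) : ℂ) * Complex.exp (2 * Real.pi * Complex.I * (0 : ℝ))) ∈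
      C.source := by
    rw [hC.src]
    constructor <;> rw [hn] <;> norm_num
  have hx0c : u (W 0 (3 / 4)) ∉ C '' sphere (0 : ℂ) 1 := by
    rw [hW]
    exact notMem_core hC hsrc (by rw [hn]; norm_num)
  have hx0i : u (W 0 (3 / 4)) ∈ interior K := by
    have hK : u (W 0 (3 / 4)) ∈ K := by
      rw [hW]
      exact (hC.col _ hsrc).2 (by rw [hn]; norm_num)
    by_contra hcon
    apply hx0c
    rw [← hC.fr, hC.comp.isClosed.frontier_eq]
    exact ⟨hK, hcon⟩
  have hx0 : u (W 0 (3 / 4)) ∈ interior K \ insert p P := ⟨hx0i, uni_mem hC.uni _⟩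
  have hx1 : u (A0 • z0) ∈ interior K \ insert p P := ⟨hh z0 hz0, uni_mem hC.uni _⟩
  have hjoin := hC.conn.joinedIn _ hx0 _ hx1
  obtain ⟨σ, hσ0, hσ⟩ := uni_exists_lift hC.uni hjoin.somePath.toContinuousMap
    (fun t => (hjoin.somePath_mem t).2) (W 0 (3 / 4)) hjoin.somePath.source.symm
  have hσ1 : u (A0 • z0) = u (σ 1) := by
    rw [hσ 1]
    exact hjoin.somePath.target.symm
  obtain ⟨g, hg1, hg2⟩ := hC.uni.deck _ _ hσ1
  have hcore : ∀ x ∈ interior K, x ∉ C '' sphere (0 : ℂ) 1 := by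
    intro x hx hx2
    rw [← hC.fr] at hx2
    exact disjoint_interior_frontier.le_bot ⟨hx, hx2⟩
  have hA : ∀ z : ℍ, u ((g * A0) • z) = u (A0 • z) := by
    intro z
    rw [mul_smul, hg2]
  refine ⟨W, g * A0, z0, hcont, hone, hlift, hper, hsides, hloc, haxis, ⟨?_, ?_⟩, hz1, ?_, ?_⟩
  · have e : (fun z : ℍ => u ((g * A0) • z)) = fun z : ℍ => u (A0 • z) := funext hA
    rw [e]
    exact hA0.lim
  · intro z w hz hw
    rw [hA, hA]
    exact hA0.par z w hz hw
  · intro z hz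
    rw [hA]
    exact hh z (hz0.trans hz)
  · intro d hd hSz
    have hz : u ((g * A0) • z0) ∉ C '' sphere (0 : ℂ) 1 := by
      rw [hA]
      exact hcore _ (hh z0 hz0)
    refine (hREG X p P u C K γ ω hC (W 0 (3 / 4)) ((g * A0) • z0) hx0c hz).2
      ⟨σ, hσ0, ?_, fun t => ?_⟩ d hd (Sz_symm hSz)
    · rw [mul_smul, hg1]
    · rw [hσ t]
      exact hcore _ (hjoin.somePath_mem t).1

end Pool.Agent.Helper56.LN
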