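import Pool.Agent.Helper64.LN.GoalsB

set_option autoImplicit false

/-! Project LN (MP_2b9d24_gt, phase 2), packet F1. -/

open Topology Filter Set Metric UpperHalfPlane
open scoped MatrixGroups

namespace Pool.Agent.Helper56.LN

open Pool.Agent.Helper64 Pool.Agent.Helper64.LN

/-- horizontal translate of a point -/
noncomputable def hsh (ζ : ℍ) (t : ℝ) : ℍ := ⟨(ζ : ℂ) + t, by simpa using ζ.im_pos⟩

theorem hsh_im (ζ : ℍ) (t : ℝ) : (hsh ζ t).im = ζ.im := by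
  change ((ζ : ℂ) + t).im = (ζ : ℂ).im
  simp

theorem hsh_zero (ζ : ℍ) : hsh ζ 0 = ζ := by
  apply UpperHalfPlane.ext
  change (ζ : ℂ) + ((0 : ℝ) : ℂ) = ζ
  simp

theorem continuous_hsh (ζ : ℍ) : Continuous (hsh ζ) := by
  rw [UpperHalfPlane.isOpenEmbedding_coe.isInducing.continuous_iff]
  change Continuous fun t : ℝ => (ζ : ℂ) + t
  fun_prop

theorem hsh_succ (ζ : ℍ) (t : ℝ) : hsh ζ (t + 1) = PQ.T1 • hsh ζ t := by
  apply UpperHalfPlane.ext
  rw [UpperHalfPlane.coe_specialLinearGroup_apply]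
  have e00 : (PQ.T1 : SL(2, ℝ)) 0 0 = 1 := rfl
  have e01 : (PQ.T1 : SL(2, ℝ)) 0 1 = 1 := rfl
  have e10 : (PQ.T1 : SL(2, ℝ)) 1 0 = 0 := rfl
  have e11 : (PQ.T1 : SL(2, ℝ)) 1 1 = 1 := rfl
  rw [e00, e01, e10, e11]
  change (ζ : ℂ) + ((t + 1 : ℝ) : ℂ) = _
  have e : ((hsh ζ t : ℍ) : ℂ) = (ζ : ℂ) + t := rfl
  rw [e]
  simp
  ring

/-- A hyperbolic element does not commute with the parabolic element of a cusp. -/
theorem nc_piA (A l : SL(2, ℝ)) (hl : 2 < |l 0 0 + l 1 1|) : Nc (mh l) (piA A) := by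
  intro h
  set m : SL(2, ℝ) := A⁻¹ * l * A with hm
  have htr : m 0 0 + m 1 1 = l 0 0 + l 1 1 := by
    have h1 : (m : Matrix (Fin 2) (Fin 2) ℝ).trace = (l : Matrix (Fin 2) (Fin 2) ℝ).trace := by
      rw [hm, Matrix.SpecialLinearGroup.coe_mul, Matrix.trace_mul_comm,
        ← Matrix.SpecialLinearGroup.coe_mul, ← mul_assoc, mul_inv_cancel, one_mul]
    rw [Matrix.trace_fin_two, Matrix.trace_fin_two] at h1
    exact h1
  have h2 : mh (m * PQ.T1) = mh (PQ.T1 * m) := by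
    have h3 : mh A⁻¹ * (mh l * piA A) * mh A = mh A⁻¹ * (piA A * mh l) * mh A := by rw [h]
    unfold piA at h3
    rw [← map_mul, ← map_mul, ← map_mul, ← map_mul, ← map_mul, ← map_mul] at h3
    have e1 : A⁻¹ * (l * (A * PQ.T1 * A⁻¹)) * A = m * PQ.T1 := by
      rw [hm]
      group
    have e2 : A⁻¹ * (A * PQ.T1 * A⁻¹ * l) * A = PQ.T1 * m := by
      rw [hm]
      group
    rwa [e1, e2] at h3
  have hdet := m.det_coe
  rw [Matrix.det_fin_two] at hdet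
  have e00 : (PQ.T1 : SL(2, ℝ)).1 0 0 = 1 := rfl
  have e01 : (PQ.T1 : SL(2, ℝ)).1 0 1 = 1 := rfl
  have e10 : (PQ.T1 : SL(2, ℝ)).1 1 0 = 0 := rfl
  have e11 : (PQ.T1 : SL(2, ℝ)).1 1 1 = 1 := rfl
  rcases (mh_eq_iff _ _).1 h2 with h3 | h3
  · have h4 := congrArg (fun g : SL(2, ℝ) => g.1 0 0) h3
    have h5 := congrArg (fun g : SL(2, ℝ) => g.1 0 1) h3
    simp only [Matrix.SpecialLinearGroup.coe_mul, Matrix.mul_apply, Fin.sum_univ_two, e00, e01,
      e10, e11] at h4 h5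
    have hc : m.1 1 0 = 0 := by linarith
    have hd : m.1 0 0 = m.1 1 1 := by linarith
    rw [hc, ← hd] at hdet
    have h6 : m.1 0 0 = 1 ∨ m.1 0 0 = -1 := by
      have : m.1 0 0 * m.1 0 0 = 1 := by linarith
      exact mul_self_eq_one_iff.1 this
    rw [← htr] at hl
    have h7 : m.1 0 0 + m.1 1 1 = m.1 0 0 + m.1 0 0 := by
      rw [hd]
    rw [h7] at hl
    rcases h6 with h6 | h6 <;> rw [h6] at hl <;> norm_num at hl
  · have h4 := congrArg (fun g : SL(2, ℝ) => g.1 0 0) h3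
    have h5 := congrArg (fun g : SL(2, ℝ) => g.1 1 0) h3
    simp only [Matrix.SpecialLinearGroup.coe_neg, Matrix.neg_apply,
      Matrix.SpecialLinearGroup.coe_mul, Matrix.mul_apply, Fin.sum_univ_two, e00, e01,
      e10, e11] at h4 h5
    have hc : m.1 1 0 = 0 := by linarith
    have ha : m.1 0 0 = 0 := by linarith
    rw [hc, ha] at hdet
    norm_num at hdet

/-- The hyperbolic matrix representing a conjugate of the curve. -/
theorem exists_hyp.{v} (hCR3 : GoalCR3) (hG0 : GoalG0.{v}) (X : Type v) [TopologicalSpace X]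
    [T2Space X] (B : Set X) (u : ℍ → X) (hu : Uni B u) (γ : ℍ ≃ₜ ℍ) (hγ : γ ∈ deck u)
    (hp : Hp (deck u) Sp γ) (g : ℍ ≃ₜ ℍ) (hg : g ∈ deck u) :
    ∃ l ∈ PQ.deckG u, g * γ * g⁻¹ = mh l ∧ 2 < |l 0 0 + l 1 1| := by
  obtain ⟨e, he, hcr⟩ := hp
  obtain ⟨g0, hg0, rfl⟩ := hγ
  obtain ⟨e0, he0, rfl⟩ := he
  obtain ⟨g1, hg1, rfl⟩ := hg
  have h1 := (hCR3 (PQ.deckG u) (hG0 X B u hu) g0 hg0 e0 he0 hcr).1
  refine ⟨g1 * g0 * g1⁻¹, mul_mem (mul_mem hg1 hg0) (inv_mem hg1), ?_, ?_⟩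
  · rw [map_mul, map_mul, map_inv]
  · have h2 : (g1 * g0 * g1⁻¹ : SL(2, ℝ)) 0 0 + (g1 * g0 * g1⁻¹ : SL(2, ℝ)) 1 1 =
        g0 0 0 + g0 1 1 := by
      have h3 : ((g1 * g0 * g1⁻¹ : SL(2, ℝ)) : Matrix (Fin 2) (Fin 2) ℝ).trace =
          (g0 : Matrix (Fin 2) (Fin 2) ℝ).trace := by
        rw [Matrix.SpecialLinearGroup.coe_mul, Matrix.trace_mul_comm,
          ← Matrix.SpecialLinearGroup.coe_mul, ← mul_assoc, inv_mul_cancel, one_mul]
      rw [Matrix.trace_fin_two, Matrix.trace_fin_two] at h3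
      exact h3
    rw [h2]
    exact h1

/-- packet F1 -/
theorem goalF1.{v} (hG0 : GoalG0.{v}) (hCR3 : GoalCR3) (hPRE : GoalPRE.{v}) (hSZ : GoalSZ)
    (hCU1 : GoalCU1.{v}) : GoalF1.{v} := by
  intro X _ _ p P u C K γ ω W A ζ hC hB g hg hnc hSp
  obtain ⟨l, hl, hgl, htr⟩ := exists_hyp hCR3 hG0 X _ u hC.uni γ hC.deck hC.hp g hg
  obtain ⟨-, hpre⟩ := hPRE X p P u C K γ ω hC
  have hax : ∀ z, z ∈ ax (g * γ * g⁻¹) → u z ∈ C '' sphere (0 : ℂ) 1 :=
    fun z hz => (hpre z).2 ⟨g, hg, hz⟩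
  have hpi := (hCU1 X p (insert p P) u A hC.uni (mem_insert _ _) hB.cusp).1
  let σ : C(ℝ, ℍ) := ⟨fun t => A • hsh ζ t,
    (mh A).continuous.comp (continuous_hsh ζ)⟩
  have hσ : ∀ t, σ t = A • hsh ζ t := fun _ => rfl
  have hmem34 : (3 / 4 : ℝ) ∈ Ioo (1 / 2 : ℝ) 2 := by constructor <;> norm_num
  let η : C(ℝ, ℍ) := ⟨fun t => W t (3 / 4), by
    rw [← continuousOn_univ]
    exact hB.cont.comp (f := fun t : ℝ => (t, (3 / 4 : ℝ))) (by fun_prop)
      (fun t _ => ⟨mem_univ _, hmem34⟩)⟩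
  have hη : ∀ t, η t = W t (3 / 4) := fun _ => rfl
  have hkey := hSZ (PQ.deckG u) (hG0 X _ u hC.uni) (g * γ * g⁻¹) (hgl ▸ ⟨l, hl, rfl⟩) (piA A) hpi
    γ hC.deck ⟨l, hgl, htr⟩ (hgl ▸ nc_piA A l htr) hnc σ η (fun t => by
      rw [hσ, hσ, hsh_succ]
      change _ = (A * PQ.T1 * A⁻¹) • (A • hsh ζ t)
      rw [← mul_smul, ← mul_smul]
      congr 1
      group) (fun t => by
      rw [hη, hη]
      exact hB.per t _ hmem34) (fun t ht => by
      have h1 := hax _ ht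
      rw [← hC.fr] at h1
      have h2 := hB.inK (hsh ζ t) (hsh_im ζ t).ge
      exact disjoint_interior_frontier.le_bot ⟨h2, h1⟩) (fun t ht => by
      have h1 := hax _ ht
      rw [hη, hB.lift t _ hmem34] at h1
      obtain ⟨z, hz, hzz⟩ := h1
      have hz1 : ‖z‖ = 1 := by simpa using hz
      have hn : ‖((3 / 4 : ℝ) : ℂ) * Complex.exp (2 * Real.pi * Complex.I * t)‖ = 3 / 4 := by
        rw [norm_mul, Complex.norm_real]
        have : (2 * (Real.pi : ℂ) * Complex.I * t) = ((2 * Real.pi * t : ℝ) : ℂ) * Complex.I := by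
          push_cast
          ring
        rw [this, Complex.norm_exp_ofReal_mul_I, mul_one, Real.norm_eq_abs]
        norm_num
      have h2 := C.injOn (x₁ := z) (x₂ := ((3 / 4 : ℝ) : ℂ) *
        Complex.exp (2 * Real.pi * Complex.I * t)) (by
          rw [hC.src]
          constructor <;> rw [hz1] <;> norm_num) (by
          rw [hC.src]
          constructor <;> rw [hn] <;> norm_num) hzz
      rw [← h2, hz1] at hn
      norm_num at hn) 0 0
  have h3 := hkey.1 hSp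
  rw [hσ, hη, hsh_zero] at h3
  exact hB.near g hg h3

end Pool.Agent.Helper56.LN
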