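import Mathlib

/-!
# Project LN (MP_2b9d24_gt): M1, a field which is a finitely generated ring is finite
-/

set_option autoImplicit false

namespace Pool.Agent.Helper56.LN

/-- The ring of integers is a Jacobson ring. -/
theorem isJacobsonRing_int : IsJacobsonRing ℤ := by
  rw [isJacobsonRing_iff_prime_eq]
  intro P hP
  by_cases h : P = ⊥
  · subst h
    refine le_antisymm (fun x hx => ?_) Ideal.le_jacobson
    rw [Ideal.mem_bot]
    by_contra hx0
    obtain ⟨p, hp, hpp⟩ := Nat.exists_infinite_primes (x.natAbs + 1)
    have hmax : (Ideal.span {(p : ℤ)}).IsMaximal :=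
      PrincipalIdealRing.isMaximal_of_irreducible (Nat.prime_iff_prime_int.1 hpp).irreducible
    have h1 : x ∈ Ideal.span {(p : ℤ)} := by
      unfold Ideal.jacobson at hx
      rw [Submodule.mem_sInf] at hx
      exact hx _ ⟨bot_le, hmax⟩
    rw [Ideal.mem_span_singleton] at h1
    have h2 : p ≤ x.natAbs := Nat.le_of_dvd (Int.natAbs_pos.2 hx0) (Int.natCast_dvd.1 h1)
    omega
  · have hmax : P.IsMaximal := hP.isMaximal h
    exact le_antisymm (sInf_le ⟨le_rfl, hmax⟩) Ideal.le_jacobson

/-- A field which is finitely generated as a ring is finite. -/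
theorem finite_of_finiteType_int (K : Type*) [Field K] [Algebra.FiniteType ℤ K] : Finite K := by
  have hJ : IsJacobsonRing ℤ := isJacobsonRing_int
  have hfin : Module.Finite ℤ K := finite_of_finite_type_of_isJacobsonRing ℤ K
  have hint : Algebra.IsIntegral ℤ K := Algebra.IsIntegral.of_finite ℤ K
  -- positive characteristic
  have hchar : ∃ p : ℕ, p ≠ 0 ∧ (p : K) = 0 := by
    by_contra hcon
    push Not at hcon
    have hcz : CharZero K := charZero_of_inj_zero fun n hn => by
      by_contra h0
      exact hcon n h0 hn
    have hinj : Function.Injective (algebraMap ℤ K) := by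
      have : (algebraMap ℤ K : ℤ → K) = fun n : ℤ => (n : K) := by
        funext n
        simp
      rw [this]
      exact Int.cast_injective
    exact Int.not_isField (isField_of_isIntegral_of_isField hinj (Field.toIsField K))
  obtain ⟨p, hp0, hp⟩ := hchar
  refine Module.finite_of_fg_torsion K ?_
  intro x
  refine ⟨⟨(p : ℤ), mem_nonZeroDivisors_of_ne_zero (by exact_mod_cast hp0)⟩, ?_⟩
  change (p : ℤ) • x = 0
  rw [zsmul_eq_mul]
  push_cast
  rw [hp, zero_mul]

/-- A field which is a quotient of a finitely generated ring is finite. -/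
theorem finite_of_surjective_of_finiteType_int {R K : Type*} [CommRing R] [Algebra.FiniteType ℤ R]
    [Field K] (f : R →+* K) (hf : Function.Surjective f) : Finite K := by
  have h : Algebra.FiniteType ℤ K := Algebra.FiniteType.of_surjective f.toIntAlgHom hf
  exact finite_of_finiteType_int K

/-- The residue fields of a finitely generated ring are finite. -/
theorem finite_quotient_of_finiteType_int {R : Type*} [CommRing R] [Algebra.FiniteType ℤ R]
    (m : Ideal R) (hm : m.IsMaximal) : Finite (R ⧸ m) := by
  let := Ideal.Quotient.field m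
  exact finite_of_surjective_of_finiteType_int (Ideal.Quotient.mk m) Ideal.Quotient.mk_surjective

/-- In a finitely generated domain a nonzero element is outside some maximal ideal. -/
theorem exists_maximal_notMem {R : Type*} [CommRing R] [IsDomain R] [Algebra.FiniteType ℤ R]
    {x : R} (hx : x ≠ 0) : ∃ m : Ideal R, m.IsMaximal ∧ x ∉ m := by
  have hJ : IsJacobsonRing ℤ := isJacobsonRing_int
  have hJR : IsJacobsonRing R := isJacobsonRing_of_finiteType (A := ℤ)
  by_contra hcon
  push Not at hcon
  have h1 : x ∈ (⊥ : Ideal R).jacobson := by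
    unfold Ideal.jacobson
    rw [Submodule.mem_sInf]
    rintro J ⟨_, hJm⟩
    exact hcon J hJm
  rw [← Ideal.radical_eq_jacobson] at h1
  obtain ⟨n, hn⟩ := h1
  exact hx (eq_zero_of_pow_eq_zero hn)

end Pool.Agent.Helper56.LN
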