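import Pool.Agent.Helper56.LN.M1

/-!
# Project LN (MP_2b9d24_gt): M2, finite quotients of finitely generated linear groups
-/

set_option autoImplicit false

namespace Pool.Agent.Helper56.LN

open Matrix

universe u v

section
variable {n : Type v} [Fintype n] [DecidableEq n] {K : Type u} [Field K]

/-- A finitely generated subgroup of `SL n K` comes from `SL n R`, where `R` is a finitely generated
subring of `K`. -/
theorem exists_lift (A : Subgroup (SpecialLinearGroup n K)) (hA : A.FG) :
    ∃ R : Subalgebra ℤ K, Algebra.FiniteType ℤ R ∧ ∃ f : A →* SpecialLinearGroup n R,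
      ∀ (a : A) (i j : n), ((f a).1 i j : K) = (a : SpecialLinearGroup n K).1 i j := by
  obtain ⟨S, hS⟩ := hA
  let T : Set K := ⋃ s ∈ S, ⋃ i, ⋃ j, {s.1 i j}
  have hT : T.Finite := by
    refine S.finite_toSet.biUnion fun s _ => ?_
    refine Set.finite_iUnion fun i => Set.finite_iUnion fun j => Set.finite_singleton _
  let R : Subalgebra ℤ K := Algebra.adjoin ℤ T
  have hR : Algebra.FiniteType ℤ R := by
    rw [← Subalgebra.fg_iff_finiteType]
    exact ⟨hT.toFinset, by rw [Set.Finite.coe_toFinset]⟩
  refine ⟨R, hR, ?_⟩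
  let φ : SpecialLinearGroup n R →* SpecialLinearGroup n K :=
    SpecialLinearGroup.map (R.val : R →+* K)
  have hφ : ∀ (g : SpecialLinearGroup n R) (i j : n), (φ g).1 i j = ((g.1 i j : R) : K) := by
    intro g i j
    rfl
  have hφinj : Function.Injective φ := by
    intro g h hgh
    ext i j
    rw [← hφ, ← hφ, hgh]
  have hle : A ≤ φ.range := by
    rw [← hS, Subgroup.closure_le]
    intro s hs
    have hmem : ∀ i j, s.1 i j ∈ R := fun i j => Algebra.subset_adjoin (by
      simp only [T, Set.mem_iUnion]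
      exact ⟨s, hs, i, j, rfl⟩)
    let M : Matrix n n R := fun i j => ⟨s.1 i j, hmem i j⟩
    have hM : M.map (R.val : R →+* K) = s.1 := rfl
    have hdet : M.det = 1 := by
      apply Subtype.val_injective
      have h1 := RingHom.map_det (R.val : R →+* K) M
      have h2 : (R.val : R →+* K).mapMatrix M = s.1 := rfl
      rw [h2, s.2] at h1
      exact h1
    exact ⟨⟨M, hdet⟩, by ext i j; rfl⟩
  let e := MonoidHom.ofInjective hφinj
  refine ⟨(e.symm.toMonoidHom).comp (Subgroup.inclusion hle), fun a i j => ?_⟩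
  have h1 : φ (e.symm (Subgroup.inclusion hle a)) = (a : SpecialLinearGroup n K) := by
    have h2 := e.apply_symm_apply (Subgroup.inclusion hle a)
    have h3 := congrArg (Subtype.val) h2
    exact h3
  rw [← h1, hφ]
  rfl

omit [Fintype n] in
theorem coe_one_apply (R : Subring K) (i j : n) :
    (((1 : Matrix n n R) i j : R) : K) = (1 : Matrix n n K) i j := by
  by_cases h : i = j
  · subst h
    simp
  · simp [h]

/-- Reduction modulo a maximal ideal which avoids a given nonzero element. -/
theorem exists_reduction (A : Subgroup (SpecialLinearGroup n K)) (hA : A.FG) (x : K)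
    (hx : x ≠ 0) (hxA : x ∈ Subring.closure
      {y : K | ∃ (a : A) (i j : n), y = (a : SpecialLinearGroup n K).1 i j}) :
    ∃ (k : Type u) (_ : CommRing k) (_ : Finite k) (R : Subring K) (π : R →+* k)
      (f : A →* SpecialLinearGroup n R), x ∈ R ∧ (∀ h : x ∈ R, π ⟨x, h⟩ ≠ 0) ∧
      ∀ (a : A) (i j : n), ((f a).1 i j : K) = (a : SpecialLinearGroup n K).1 i j := by
  obtain ⟨R, hR, f, hf⟩ := exists_lift A hA
  have hxR : x ∈ R.toSubring := by
    refine (Subring.closure_le.2 ?_ : _ ≤ R.toSubring) hxA
    rintro y ⟨a, i, j, rfl⟩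
    rw [← hf a i j]
    exact ((f a).1 i j).2
  have hx0 : (⟨x, hxR⟩ : R) ≠ 0 := fun h => hx (congrArg Subtype.val h)
  obtain ⟨m, hm, hxm⟩ := exists_maximal_notMem hx0
  refine ⟨R ⧸ m, inferInstance, finite_quotient_of_finiteType_int m hm, R.toSubring,
    Ideal.Quotient.mk m, f, hxR, fun h h0 => hxm ?_, hf⟩
  exact Ideal.Quotient.eq_zero_iff_mem.1 h0

/-- A finitely generated subgroup of `SL n K` is residually finite (Malcev). -/
theorem residuallyFinite (A : Subgroup (SpecialLinearGroup n K)) (hA : A.FG) :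
    Group.ResiduallyFinite A := by
  refine Group.residuallyFinite_of_forall_exists_finite_monoidHom fun a ha => ?_
  have hne : ∃ i j, (a : SpecialLinearGroup n K).1 i j ≠ (1 : Matrix n n K) i j := by
    by_contra hcon
    push Not at hcon
    apply ha
    apply Subtype.ext
    apply Subtype.ext
    ext i j
    exact hcon i j
  obtain ⟨i, j, hij⟩ := hne
  have hx : (a : SpecialLinearGroup n K).1 i j - (1 : Matrix n n K) i j ≠ 0 := sub_ne_zero.2 hij
  obtain ⟨k, _, hk, R, π, f, hxR, hπ, hf⟩ := exists_reduction A hA _ hx (by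
    refine Subring.sub_mem _ (Subring.subset_closure ⟨a, i, j, rfl⟩)
      (Subring.subset_closure ⟨1, i, j, rfl⟩))
  refine ⟨SpecialLinearGroup n k, inferInstance, inferInstance,
    (SpecialLinearGroup.map π).comp f, fun h => hπ hxR ?_⟩
  have h1 : (⟨_, hxR⟩ : R) = (f a).1 i j - (1 : Matrix n n R) i j := by
    apply Subtype.ext
    change _ = (((f a).1 i j : R) : K) - (((1 : Matrix n n R) i j : R) : K)
    rw [hf, coe_one_apply]
  have h2 : π ((f a).1 i j) = (1 : Matrix n n k) i j := congrArg (fun g => g.1 i j) h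
  rw [h1, map_sub, h2]
  by_cases h : i = j
  · subst h
    simp
  · simp [h]

end

section
variable {K : Type u} [Field K]

/-- A finitely generated subgroup of `SL 2 K` has for each element `a ≠ 1, -1` a finite quotient in
which `a` survives but `-1` dies. -/
theorem exists_finite_monoidHom (A : Subgroup (SpecialLinearGroup (Fin 2) K)) (hA : A.FG) (a : A)
    (ha1 : (a : SpecialLinearGroup (Fin 2) K) ≠ 1)
    (ha2 : (a : SpecialLinearGroup (Fin 2) K) ≠ -1) :
    ∃ (F : Type u) (_ : Group F) (_ : Finite F) (f : A →* F), f a ≠ 1 ∧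
      ∀ b : A, (b : SpecialLinearGroup (Fin 2) K) = -1 → f b = 1 := by
  have hne1 : ∃ i j, (a : SpecialLinearGroup (Fin 2) K).1 i j ≠
      (1 : Matrix (Fin 2) (Fin 2) K) i j := by
    by_contra hcon
    push Not at hcon
    apply ha1
    apply Subtype.ext
    ext i j
    exact hcon i j
  have hne2 : ∃ i j, (a : SpecialLinearGroup (Fin 2) K).1 i j ≠
      (-1 : Matrix (Fin 2) (Fin 2) K) i j := by
    by_contra hcon
    push Not at hcon
    apply ha2
    apply Subtype.ext
    ext i j
    exact hcon i j
  obtain ⟨i, j, hij⟩ := hne1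
  obtain ⟨i', j', hij'⟩ := hne2
  have hx1 := sub_ne_zero.2 hij
  have hx2 := sub_ne_zero.2 hij'
  obtain ⟨k, _, hk, R, π, f, hxR, hπ, hf⟩ := exists_reduction A hA _ (mul_ne_zero hx1 hx2) (by
    refine Subring.mul_mem _ (Subring.sub_mem _ (Subring.subset_closure ⟨a, i, j, rfl⟩)
      (Subring.subset_closure ⟨1, i, j, rfl⟩)) (Subring.sub_mem _
      (Subring.subset_closure ⟨a, i', j', rfl⟩)
      (Subring.neg_mem _ (Subring.subset_closure ⟨1, i', j', rfl⟩))))
  have h1 : (⟨_, hxR⟩ : R) = ((f a).1 i j - (1 : Matrix (Fin 2) (Fin 2) R) i j) *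
      ((f a).1 i' j' - (-1 : Matrix (Fin 2) (Fin 2) R) i' j') := by
    apply Subtype.ext
    change _ = ((((f a).1 i j : R) : K) - (((1 : Matrix (Fin 2) (Fin 2) R) i j : R) : K)) *
      ((((f a).1 i' j' : R) : K) - -(((1 : Matrix (Fin 2) (Fin 2) R) i' j' : R) : K))
    rw [hf, hf, coe_one_apply, coe_one_apply]
    rfl
  have hnorm : (Subgroup.zpowers (-1 : SpecialLinearGroup (Fin 2) k)).Normal := by
    constructor
    intro x hx g
    have hcomm : Commute g (-1 : SpecialLinearGroup (Fin 2) k) := by
      change g * (-1) = (-1) * g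
      rw [mul_neg, neg_mul, mul_one, one_mul]
    obtain ⟨z, rfl⟩ := hx
    have h2 : g * (-1 : SpecialLinearGroup (Fin 2) k) ^ z * g⁻¹ =
        (-1 : SpecialLinearGroup (Fin 2) k) ^ z := by
      rw [(hcomm.zpow_right z).eq, mul_assoc, mul_inv_cancel, mul_one]
    change g * (-1 : SpecialLinearGroup (Fin 2) k) ^ z * g⁻¹ ∈ _
    rw [h2]
    exact Subgroup.zpow_mem_zpowers _ _
  refine ⟨SpecialLinearGroup (Fin 2) k ⧸ Subgroup.zpowers (-1 : SpecialLinearGroup (Fin 2) k),
    inferInstance, inferInstance,
    (QuotientGroup.mk' _).comp ((SpecialLinearGroup.map π).comp f), fun h => ?_, fun b hb => ?_⟩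
  · apply hπ hxR
    rw [h1, map_mul, map_sub, map_sub]
    have h2 : SpecialLinearGroup.map π (f a) ∈
        Subgroup.zpowers (-1 : SpecialLinearGroup (Fin 2) k) := (QuotientGroup.eq_one_iff _).1 h
    obtain ⟨z, hz⟩ := h2
    have hsq : (-1 : SpecialLinearGroup (Fin 2) k) ^ (2 : ℤ) = 1 := by
      rw [zpow_ofNat, sq, neg_mul_neg, one_mul]
    have h3 : SpecialLinearGroup.map π (f a) = 1 ∨ SpecialLinearGroup.map π (f a) = -1 := by
      rw [← hz]
      rcases Int.even_or_odd' z with ⟨w, rfl | rfl⟩
      · left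
        change (-1 : SpecialLinearGroup (Fin 2) k) ^ (2 * w) = 1
        rw [_root_.zpow_mul, hsq, _root_.one_zpow]
      · right
        change (-1 : SpecialLinearGroup (Fin 2) k) ^ (2 * w + 1) = -1
        rw [_root_.zpow_add, _root_.zpow_mul, hsq, _root_.one_zpow, one_mul, _root_.zpow_one]
    rcases h3 with h3 | h3
    · have h4 : π ((f a).1 i j) = (1 : Matrix (Fin 2) (Fin 2) k) i j :=
        congrArg (fun g => g.1 i j) h3
      have h5 : π ((1 : Matrix (Fin 2) (Fin 2) R) i j) = (1 : Matrix (Fin 2) (Fin 2) k) i j := by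
        by_cases h : i = j
        · subst h
          simp
        · simp [h]
      rw [h4, h5, sub_self, zero_mul]
    · have h4 : π ((f a).1 i' j') = (-1 : Matrix (Fin 2) (Fin 2) k) i' j' :=
        congrArg (fun g => g.1 i' j') h3
      have h5 : π ((-1 : Matrix (Fin 2) (Fin 2) R) i' j') =
          (-1 : Matrix (Fin 2) (Fin 2) k) i' j' := by
        by_cases h : i' = j'
        · subst h
          simp
        · simp [h]
      rw [h4, h5, sub_self, mul_zero]
  · change QuotientGroup.mk' _ (SpecialLinearGroup.map π (f b)) = 1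
    rw [QuotientGroup.mk'_apply, QuotientGroup.eq_one_iff]
    have h3 : SpecialLinearGroup.map π (f b) = -1 := by
      ext u v
      have h4 : (f b).1 u v = (-1 : Matrix (Fin 2) (Fin 2) R) u v := by
        apply Subtype.ext
        rw [hf, hb]
        change (-1 : Matrix (Fin 2) (Fin 2) K) u v = (((-1 : Matrix (Fin 2) (Fin 2) R) u v : R) : K)
        by_cases h : u = v
        · subst h
          simp
        · simp [h]
      change π ((f b).1 u v) = (-1 : Matrix (Fin 2) (Fin 2) k) u v
      rw [h4]
      by_cases h : u = v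
      · subst h
        simp
      · simp [h]
    rw [h3]
    exact Subgroup.mem_zpowers _

end

end Pool.Agent.Helper56.LN
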