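import Mathlib

/-!
# Project LN (MP_2b9d24_gt): M3, finitely generated residually finite groups are Hopfian
-/

set_option autoImplicit false

namespace Pool.Agent.Helper56.LN

/-- A finitely generated group has only finitely many homomorphisms to a finite group. -/
theorem finite_monoidHom (G H : Type*) [Group G] [Group H] [hG : Group.FG G] [Finite H] :
    Finite (G →* H) := by
  obtain ⟨S, hS, hfin⟩ := (Group.fg_iff (G := G)).1 hG
  have : Finite S := hfin.to_subtype
  refine Finite.of_injective (fun (f : G →* H) (s : S) => f s) fun f g hfg => ?_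
  refine MonoidHom.eq_of_eqOn_dense hS fun s hs => ?_
  exact congrFun hfg ⟨s, hs⟩

/-- A finitely generated residually finite group is Hopfian. -/
theorem hopf {G : Type*} [Group G] [Group.FG G] [Group.ResiduallyFinite G] (f : G →* G)
    (hf : Function.Surjective f) : Function.Injective f := by
  rw [injective_iff_map_eq_one]
  intro g hg
  by_contra hg1
  obtain ⟨N, hN⟩ := Group.exists_finiteIndexNormalSubgroup_notMem g hg1
  have hfinq : Finite (G ⧸ N.toSubgroup) := Subgroup.finite_quotient_of_finiteIndex
  have hfin : Finite (G →* G ⧸ N.toSubgroup) := finite_monoidHom G (G ⧸ N.toSubgroup)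
  have hinj : Function.Injective (fun ψ : G →* G ⧸ N.toSubgroup => ψ.comp f) := by
    intro ψ ψ' h
    ext x
    obtain ⟨y, rfl⟩ := hf x
    exact DFunLike.congr_fun h y
  obtain ⟨ψ, hψ⟩ := (Finite.injective_iff_surjective.1 hinj) (QuotientGroup.mk' N.toSubgroup)
  apply hN
  rw [← FiniteIndexNormalSubgroup.mem_toSubgroup_iff, ← QuotientGroup.eq_one_iff]
  have h1 : (ψ.comp f) g = (QuotientGroup.mk' N.toSubgroup) g := DFunLike.congr_fun hψ g
  rw [MonoidHom.comp_apply, hg, map_one] at h1
  exact h1.symm

/-- If a subgroup `A'` contains the finitely generated residually finite subgroup `A`, is isomorphic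
to `A`, and if `A` is a retract of the whole group, then `A' = A`. -/
theorem eq_of_retract {D : Type*} [Group D] (A A' : Subgroup D) (hle : A ≤ A') (e : A ≃* A')
    (hfg : Group.FG A) (hrf : Group.ResiduallyFinite A) (ρ : D →* A) (hρ : ∀ a : A, ρ (a : D) = a) :
    A = A' := by
  have hsurj : Function.Surjective ((ρ.comp A'.subtype).comp e.toMonoidHom) := by
    intro a
    refine ⟨e.symm ⟨a, hle a.2⟩, ?_⟩
    change ρ ((e (e.symm ⟨a, hle a.2⟩) : A') : D) = a
    rw [MulEquiv.apply_symm_apply]
    exact hρ a
  have hinj := hopf _ hsurj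
  refine le_antisymm hle fun x hx => ?_
  have h1 : e.symm ⟨x, hx⟩ = e.symm ⟨((ρ x : A) : D), hle (ρ x).2⟩ := by
    apply hinj
    change ρ ((e (e.symm ⟨x, hx⟩) : A') : D) =
      ρ ((e (e.symm ⟨((ρ x : A) : D), hle (ρ x).2⟩) : A') : D)
    rw [MulEquiv.apply_symm_apply, MulEquiv.apply_symm_apply]
    exact (hρ (ρ x)).symm
  have h2 := e.symm.injective h1
  have h3 : x = ((ρ x : A) : D) := congrArg Subtype.val h2
  rw [h3]
  exact (ρ x).2

end Pool.Agent.Helper56.LN
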